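import Pool.Agent.MP_ed9623_an.H77.SpecX

/-! Test fields which vanish on the boundary line are admissible. -/

open MeasureTheory Filter Topology Set
open scoped ContDiff

namespace Pool.Agent.MP_ed9623_an.H77

open H64

namespace Bdy

variable {r : ℝ} {h ζ : P → ℝ} {γ : ℝ → ℝ}

theorem slice (hh : Test (Q r) h) (s : ℝ) : Integrable fun y => h (y, s) :=
  (hh.ct.comp (by fun_prop)).integrable_of_hasCompactSupport
    (HasCompactSupport.intro (isCompact_Icc (a := -r) (b := r)) fun y hy =>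
      hh.off fun hq => hy (Ioo_subset_Icc_self hq.1))

theorem tang (hh : Test (Q r) h) : ∫ p, (Qp 0 r).indicator (pd (ee 0) h) p = 0 := by
  have hk := hh.pd (ee 0)
  have i : Integrable ((Qp 0 r).indicator (pd (ee 0) h)) ((volume : Measure ℝ).prod volume) :=
    (hk.ct.integrable_of_hasCompactSupport hk.2.1).indicator (isOpen_Qp 0 r).measurableSet
  rw [Measure.volume_eq_prod, integral_prod_symm _ i]
  refine (integral_congr_ae (Eventually.of_forall fun s => ?_)).trans (integral_zero _ _)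
  by_cases hs : 0 < s
  · have e : (fun y => (Qp 0 r).indicator (pd (ee 0) h) (y, s)) = fun y => pd (ee 0) h (y, s) :=
      funext fun y => by
        by_cases hq : ((y, s) : P) ∈ Q r
        · exact indicator_of_mem (show ((y, s) : P) ∈ Qp 0 r from ⟨hq, hs⟩) _
        · rw [indicator_of_notMem fun a => hq a.1, hk.off hq]
    simp only [e]
    refine integral_eq_zero_of_hasDerivAt_of_integrable (fun y => ?_) (slice hk s) (slice hh s)
    have := (sm_diff hh.1 (y, s)).hasFDerivAt.comp_hasDerivAt y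
      ((hasDerivAt_id y).prodMk (hasDerivAt_const y s))
    exact this
  · have e : (fun y => (Qp 0 r).indicator (pd (ee 0) h) (y, s)) = fun _ => 0 :=
      funext fun y => indicator_of_notMem (fun a => hs a.2) _
    simp only [e, integral_zero]

/-- The restriction to the upper half is of class `H¹`. -/
theorem plus (hZ : ZtS) (hγ : Gam γ) (hr : 0 < r) (hζ : Test (Q r) ζ) (h0 : ∀ y, ζ (y, 0) = 0) :
    H1 γ ((Qp 0 r).indicator ζ) fun i => (Qp 0 r).indicator (dd γ i ζ) := by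
  have mQ := (isOpen_Qp 0 r).measurableSet
  have key : ∀ e φ, Test univ φ →
      ∫ p, (Qp 0 r).indicator (fun p => φ p * pd e ζ p + pd e φ p * ζ p) p = 0 →
      ∫ x, (Qp 0 r).indicator ζ x * pd e φ x = -∫ x, (Qp 0 r).indicator (pd e ζ) x * φ x := by
    intro e φ hφ h
    rw [eq_neg_iff_add_eq_zero, ← integral_add ((hζ.m2.ind mQ).int_mul (hφ.pd e).m2)
      (((hζ.pd e).m2.ind mQ).int_mul hφ.m2)]
    refine (integral_congr_ae (Eventually.of_forall fun p => ?_)).trans h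
    by_cases hp : p ∈ Qp 0 r
    · simp only [indicator_of_mem hp]; ring
    · simp only [indicator_of_notMem hp]; ring
  refine (H1O.of_wd hγ (hζ.m2.ind mQ) ((hζ.pd _).m2.ind mQ) ((hζ.pd _).m2.ind mQ)
    (fun φ hφ => key _ φ hφ ?_) fun φ hφ => key _ φ hφ ?_).congr EventuallyEq.rfl
    fun i => Eventually.of_forall fun p => ?_
  · refine Eq.trans (congrArg (fun k => ∫ p, (Qp 0 r).indicator k p) (funext fun p => ?_))
      (tang (hζ.smul hφ.1))
    rw [pd_mul _ (sm_diff hφ.1 p) (sm_diff hζ.1 p), add_comm]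
  · obtain ⟨T, -, -, hT⟩ := (hZ r φ _ hr hφ.m2 (hφ.pd _).m2).1
      (WD.of_cd (contDiff_infty.1 hφ.1 1) _ _)
    rw [integral_indicator mQ, hT ζ hζ]
    simp [h0]
  · by_cases hp : p ∈ Qp 0 r
    · fin_cases i
      · simp [indicator_of_mem hp, dd0]
      · simp [dd1]
    · fin_cases i <;> simp [indicator_of_notMem hp]

theorem approx (hZ : ZtS) (hD : DensS) (hγ : Gam γ) (hr : 0 < r) (hζ : Test (Q r) ζ)
    (h0 : ∀ y, ζ (y, 0) = 0) {ε : ℝ} (hε : 0 < ε) : ∃ φ, Test (Qp 0 r) φ ∧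
    nm (fun p => (Qp 0 r).indicator ζ p - φ p) ≤ ε ∧
      ∀ i, nm (fun p => (Qp 0 r).indicator (dd γ i ζ) p - dd γ i φ p) ≤ ε := by
  obtain ⟨r₁, h1, h2⟩ := exists_lt_subset_ball (isClosed_tsupport ζ) (Q_eq_ball r ▸ hζ.2.2)
  refine (hD γ 0 r r₁ hγ h1).1 _ _ (plus hZ hγ hr hζ h0) (Eventually.of_forall fun p hp => ?_) ε hε
  by_cases a : p ∈ Qp 0 r
  · rw [indicator_of_mem a]
    exact image_eq_zero_of_notMem_tsupport fun b => hp ⟨Q_eq_ball r₁ ▸ h2 b, a.2⟩
  · exact indicator_of_notMem a _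

theorem cmp {F ψ φ : P → ℝ} {ε : ℝ} (hF : M2 F) (hv : Van (Q r \ Qp 0 r) F) (hψ : Test (Q r) ψ)
    (hφ : M2 φ) (h : nm (fun p => (Qp 0 r).indicator ψ p - φ p) ≤ ε) :
    |(∫ x, F x * ψ x) - ∫ x, F x * φ x| ≤ nm F * ε := by
  have m := hψ.m2.ind (isOpen_Qp 0 r).measurableSet
  have e : (∫ x, F x * ψ x) - ∫ x, F x * φ x = ∫ x, F x * ((Qp 0 r).indicator ψ x - φ x) := by
    rw [← integral_sub (hF.int_mul hψ.m2) (hF.int_mul hφ)]
    refine integral_congr_ae (Filter.Eventually.mono hv fun p hp => ?_)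
    by_cases a : p ∈ Qp 0 r
    · simp only [indicator_of_mem a]; ring
    · by_cases b : p ∈ Q r
      · simp [hp ⟨b, a⟩]
      · simp [indicator_of_notMem a, hψ.off b]
  rw [e]
  exact (abs_int_le hF (m.sub hφ)).trans (mul_le_mul_of_nonneg_left h (nm_nonneg _))

end Bdy

theorem rowBdy : OfBdy := by
  intro hZ hL hD γ r a w z da dw hγ hr ha hw hz hv he ζ hζ
  have pr : ∀ (a w : Fin 2 → P → ℝ) da dw, VF γ a da → VF γ w dw → ∀ i j,
      M2 fun p => a i p * w j p := fun a w da dw ha hw i j =>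
    (hL _ _ _ _ (ha.h1 i).m (((ha.h1 i).md 0).add (((ha.h1 i).md 1).gmul hγ.deriv)) (hw.h1 j).m
      ((hw.h1 j).md 1) ((ha.h1 i).wd0 hγ) (hw.h1 j).wd1).1
  set C : ℝ := ∑ j, nm (z j) + ∑ j, ∑ i, nm (dw j i) + ∑ j, ∑ i, nm (fun p => a i p * w j p)
    + ∑ j, ∑ i, nm (fun p => w i p * a j p) with hC
  have main : ∀ ε : ℝ, 0 < ε → |Tx γ a w dw z ζ| ≤ C * ε := fun ε hε => by
    choose φ h1 h2 h3 using fun j => Bdy.approx hZ hD hγ hr (hζ j).1 (hζ j).2 hε
    have k : ∀ F : Fin 2 → Fin 2 → P → ℝ, (∀ j i, M2 (F j i)) →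
        (∀ j i, Van (Q r \ Qp 0 r) (F j i)) →
        |di γ F ζ - di γ F φ| ≤ (∑ j, ∑ i, nm (F j i)) * ε := fun F hF hV => by
      simp only [di, ← Finset.sum_sub_distrib, Finset.sum_mul]
      refine (Finset.abs_sum_le_sum_abs _ _).trans (Finset.sum_le_sum fun j _ =>
        (Finset.abs_sum_le_sum_abs _ _).trans (Finset.sum_le_sum fun i _ => ?_))
      exact Bdy.cmp (hF j i) (hV j i) ((hζ j).1.dd hγ i) ((h1 j).dd hγ i).m2 (h3 j i)
    have k0 : |ip z ζ - ip z φ| ≤ (∑ j, nm (z j)) * ε := by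
      simp only [ip, ← Finset.sum_sub_distrib, Finset.sum_mul]
      exact (Finset.abs_sum_le_sum_abs _ _).trans (Finset.sum_le_sum fun j _ =>
        Bdy.cmp (hz j) (hv j).2.2 (hζ j).1 (h1 j).m2 (h2 j))
    have k1 := k dw (fun j => (hw.h1 j).md) fun j =>
      ((hw.h1 j).mono (subset_univ _)).van_low hγ (hv j).2.1
    have k2 : |tl γ a w ζ - tl γ a w φ| ≤ _ :=
      k (fun j i p => a i p * w j p) (fun j i => pr a w da dw ha hw i j) fun j i =>
        (hv j).2.1.smul _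
    have k3 : |tl γ w a ζ - tl γ w a φ| ≤ _ :=
      k (fun j i p => w i p * a j p) (fun j i => pr w a dw da hw ha i j) fun j i =>
        (hv j).1.smul _
    have e := he φ h1
    rw [E1] at e
    rw [abs_le] at k0 k1 k2 k3 ⊢
    rw [hC, Tx]
    constructor <;> linarith [k0.1, k0.2, k1.1, k1.2, k2.1, k2.2, k3.1, k3.2]
  rw [E1_iff, ← abs_nonpos_iff]
  refine le_of_forall_pos_le_add fun δ hδ => ?_
  have c0 : 0 < |C| + 1 := by positivity
  refine (main _ (div_pos hδ c0)).trans ?_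
  rw [zero_add, mul_div_assoc', div_le_iff₀ c0]
  nlinarith [le_abs_self C]

end Pool.Agent.MP_ed9623_an.H77
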